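import Mathlib
import Pool.Agent.H.MP_2e4b78_lc.A
import Pool.Agent.H.MP_891d8f_lc.A

set_option autoImplicit false

namespace Pool.Agent.H.MP_5a4599_gt

open Set Filter Function Cardinal Order Topology TopologicalSpace Pool.Agent.H.MP_77d395_lc
  Pool.Agent.H.MP_6e75db_lc Pool.Agent.H.MP_2e4b78_lc Pool.Agent.H.MP_891d8f_lc

/-- the bounding number is above omega one -/
def Bb : Prop := ∀ f : I → ℕ → ℕ, ∃ g : ℕ → ℕ, ∀ a, ∀ᶠ n in atTop, f a n ≤ g n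

/-- locally countable families -/
def LC {X : Type} [TopologicalSpace X] (B : Set (Set X)) : Prop :=
  ∀ x, ∃ W ∈ 𝓝 x, {U ∈ B | (U ∩ W).Nonempty}.Countable

/-- metacompact spaces -/
def MC (X : Type) [TopologicalSpace X] : Prop :=
  ∀ 𝒪 : Set (Set X), (∀ O ∈ 𝒪, IsOpen O) → ⋃₀ 𝒪 = Set.univ → ∃ 𝒱 : Set (Set X),
    (∀ V ∈ 𝒱, IsOpen V ∧ ∃ O ∈ 𝒪, V ⊆ O) ∧ ⋃₀ 𝒱 = Set.univ ∧ ∀ x, {V ∈ 𝒱 | x ∈ V}.Finite

theorem cs : ∃ C, CS C := by
  refine (Classical.skolem (p := fun α (c : ℕ → I) => IsSuccLimit α → StrictMono c ∧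
    (∀ n, c n < α) ∧ ∀ β < α, ∃ n, β < c n)).1 fun α => ?_
  by_cases l : IsSuccLimit α
  swap
  · exact ⟨fun _ => α, fun h => (l h).elim⟩
  obtain ⟨u, hu⟩ := ((cI α).mono Iio_subset_Iic_self).exists_eq_range l.nonempty_Iio
  choose! s s1 s2 using fun a h => (not_covBy_iff h).1 (l.2 a)
  have u1 : ∀ n, u n < α := fun n => hu.ge (mem_range_self n)
  let c : ℕ → I := Nat.rec (u 0) fun n x => s (max x (u n))
  have c1 : ∀ n, c n < α := fun n => n.rec (u1 0) fun n h => s2 _ (max_lt h (u1 n))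
  refine ⟨c, fun _ => ⟨strictMono_nat_of_lt_succ fun n => (le_max_left _ _).trans_lt
    (s1 _ (max_lt (c1 n) (u1 n))), c1, fun β h => ?_⟩⟩
  obtain ⟨n, rfl⟩ := hu.le h
  exact ⟨n + 1, (le_max_right _ _).trans_lt (s1 _ (max_lt (c1 n) h))⟩

theorem dom (hb : Bb) {X : Type} (hX : #X ≤ ℵ₁) (f : X → ℕ → ℕ) :
    ∃ g : ℕ → ℕ, ∀ x, ∀ᶠ n in atTop, f x n ≤ g n := by
  obtain ⟨e⟩ := (le_def X I).1 (mkI ▸ hX)
  exact (hb (extend e f 0)).imp fun g h x => e.injective.extend_apply f 0 x ▸ h (e x)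

theorem lad (hk : ¬ KA) (hb : Bb) {X : Type} (hX : #X ≤ ℵ₁) (τ : X → ℕ → I)
    (hτ : ∀ x, Monotone (τ x)) (l : X → ℕ → ℕ) : ∃ (k : ℕ → ℕ) (D : Set I), StrictMono k ∧
      IsClub D ∧ ∀ x, (∀ᶠ i in atTop, l x (k i) ≤ k (i + 1)) ∧
        ∃ᶠ i in atTop, ∀ d ∈ D, τ x (k i) < d → τ x (k (i + 2)) < d := by
  obtain ⟨C, c⟩ := cs
  have : ∀ x, ∃ (ε : I) (φ : ℕ → ℕ), (∃ a, ∀ b, τ x b ≤ τ x a) ∨
      IsSuccLimit ε ∧ ∀ n, τ x n < C ε (φ n) ∧ C ε n < τ x (φ n) := fun x => by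
    by_cases h : ∃ a, ∀ b, τ x b ≤ τ x a
    · exact ⟨o, id, .inl h⟩
    push Not at h
    obtain ⟨ε, e1, e2⟩ := wellFounded_lt.has_min {b | ∀ n, τ x n < b}
      ((bd (countable_range (τ x))).imp fun b h n => h _ ⟨n, rfl⟩)
    have e3 : ∀ β < ε, ∃ n, β < τ x n := fun β p =>
      let ⟨a, q⟩ := not_forall.1 fun q => e2 β q p; (h a).imp fun _ => (not_lt.1 q).trans_lt
    have s : IsSuccLimit ε := ⟨(e1 0).not_isMin, fun β p =>
      let ⟨n, q⟩ := e3 β p.1; p.2 q (e1 n)⟩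
    choose f hf using fun n => (c ε s).2.2 _ (e1 n)
    choose g hg using fun n => e3 _ ((c ε s).2.1 n)
    exact ⟨ε, fun n => max (f n) (g n), .inr ⟨s, fun n => ⟨(hf n).trans_le ((c ε s).1.monotone
      (le_max_left _ _)), (hg n).trans_le (hτ x (le_max_right _ _))⟩⟩⟩
  choose ε φ H using this
  obtain ⟨h, hh⟩ := dom hb hX fun x n => max (φ x n) (l x n)
  let k : ℕ → ℕ := Nat.rec 0 fun _ a => max (h a) (a + 1)
  have k1 : StrictMono k := strictMono_nat_of_lt_succ fun n => le_max_right _ (k n + 1)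
  have k2 : ∀ x, ∀ᶠ i in atTop, φ x (k i) ≤ k (i + 1) ∧ l x (k i) ≤ k (i + 1) := fun x =>
    (k1.tendsto_atTop.eventually (hh x)).mono fun i p => max_le_iff.1 (p.trans (le_max_left _ _))
  have k3 : StrictMono fun j => k (4 * j) := k1.comp fun a b h => by omega
  obtain ⟨D, d1, d2⟩ : ∃ D : Set I, IsClub D ∧ ∀ α, IsSuccLimit α → ∃ᶠ j in atTop,
      ¬ (D ∩ Ioo (C α (k (4 * j))) (C α (k (4 * (j + 1))))).Nonempty := by
    simpa only [not_forall, not_exists, not_and, exists_prop, not_eventually] using not_and.1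
      (not_exists.1 hk fun α j => C α (k (4 * j))) fun α l => ⟨(c α l).1.comp k3,
        fun _ => (c α l).2.1 _, fun β p => ((c α l).2.2 β p).imp fun n q =>
          q.trans_le ((c α l).1.monotone (k3.id_le n))⟩
  refine ⟨k, D, k1, d1, fun x => ⟨(k2 x).mono fun i p => p.2, ?_⟩⟩
  rcases H x with ⟨a, p⟩ | ⟨s, p⟩
  · exact ((k1.tendsto_atTop.eventually_ge_atTop a).mono fun i q d _ r =>
      ((p _).trans (hτ x q)).trans_lt r).frequently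
  obtain ⟨M, q⟩ := eventually_atTop.1 (k2 x)
  refine frequently_atTop.2 fun N => ?_
  obtain ⟨j, j1, j2⟩ := frequently_atTop.1 (d2 _ s) (M + N)
  exact ⟨4 * j + 1, by omega, fun d r t => ((p _).1.trans_le ((c _ s).1.monotone (q (4 * j + 3)
    (by omega)).1)).trans_le (not_lt.1 fun u => j2 ⟨d, r, ((p _).2.trans_le (hτ x (q (4 * j)
      (by omega)).1)).trans t, u⟩)⟩

theorem core (hk : ¬ KA) (hb : Bb) {X : Type} [TopologicalSpace X] [Nonempty X] (hX : #X ≤ ℵ₁)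
    (B : ℕ → Set (Set X)) (hB : IsTopologicalBasis (⋃ n, B n)) (hl : ∀ n, LC (B n)) :
    ∃ (W P : X → ℕ → Set X) (Z : ℕ → Set X) (l : X → ℕ → ℕ),
      (∀ x i, IsOpen (P x i) ∧ x ∈ P x i ∧ P x i ⊆ W x i ∧ IsOpen (W x i)) ∧
      (∀ x, ∀ N ∈ 𝓝 x, ∀ᶠ i in atTop, W x i ⊆ N) ∧ (∀ x, ∃ᶠ i in atTop, x ∈ Z i) ∧
      (∀ i, ∀ x ∈ Z i, ∀ y ∈ Z i, l x i = l y i → (P x i ∩ P y i).Nonempty → W x i = W y i) ∧
      ∀ z, ∀ᶠ i in atTop, ∀ x ∈ Z i ∩ W z i, ∀ y ∈ Z i ∩ W z i, l x i = l y i →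
        W x i = W y i := by
  let Sm (a : ℕ) (W : Set X) := ∀ n ≤ a, {U ∈ B n | (U ∩ W).Nonempty}.Countable
  choose en he using fun x => countable_iff_exists_subset_range.1 (countable_iUnion fun n =>
    let ⟨W, p, q⟩ := hl n x
    q.mono (show {U ∈ B n | x ∈ U} ⊆ _ from fun U r =>
      And.intro r.1 (Exists.intro x (And.intro r.2 (mem_of_mem_nhds p)))))
  obtain ⟨g⟩ := (le_def (X × ℕ) I).1 (by
    simpa [mkI] using mul_le_of_le (aleph0_le_aleph 1) hX (aleph0_le_aleph 1))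
  let w : I → Set X := fun γ => uncurry en (invFun g γ)
  have : ∀ U : Set X, (∃ n, U ∈ B n) → U.Nonempty → ∃ γ, w γ = U := fun U ⟨n, p⟩ ⟨x, q⟩ =>
    let ⟨j, e⟩ := he x (mem_iUnion.2 ⟨n, p, q⟩)
    ⟨g (x, j), (congrArg (uncurry en) (leftInverse_invFun g.injective _)).trans e⟩
  choose! r hr using this
  have : ∀ x a, ∃ W n, W ∈ B n ∧ x ∈ W ∧ Sm a W ∧ ∀ n ≤ a, en x n ∈ 𝓝 x → W ⊆ en x n :=
    fun x a => by
      obtain ⟨t, t1, t2⟩ := eventually_smallSets.1 ((eventually_all_finite (finite_le_nat a)).2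
        fun n _ => (show ∀ᶠ W in (𝓝 x).smallSets, {U ∈ B n | (U ∩ W).Nonempty}.Countable from
          let ⟨W, p, q⟩ := hl n x
          eventually_smallSets.2 ⟨W, p, fun t s => q.mono fun U r =>
            And.intro r.1 (r.2.mono (inter_subset_inter_right _ s))⟩).and
          (show ∀ᶠ W in (𝓝 x).smallSets, en x n ∈ 𝓝 x → W ⊆ en x n from
            eventually_imp_distrib_left.2 eventually_smallSets_subset.2))
      obtain ⟨W, p, q, s⟩ := hB.mem_nhds_iff.1 t1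
      obtain ⟨n, p⟩ := mem_iUnion.1 p
      exact ⟨W, n, p, q, fun n h => (t2 W s n h).1, fun n h => (t2 W s n h).2⟩
  choose V v v1 v2 v3 v4 using this
  choose u u1 u2 using fun x a => exists_max_image (Iic a) (fun b => r (V x b)) (finite_Iic a)
    nonempty_Iic
  obtain ⟨k, D, k1, d1, H⟩ := lad hk hb hX (fun x a => r (V x (u x a)))
    (fun x a b h => u2 x b _ ((u1 x a).trans h)) fun x a => max (v x a) (v x (u x a))
  let S : I → Set I := fun γ => r '' ⋃ n, ⋃ (_ : {U ∈ B n | (U ∩ w γ).Nonempty}.Countable),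
    {U ∈ B n | (U ∩ w γ).Nonempty}
  have d2 := d1.inter (by simp [I, aleph0_lt_aleph_one.ne']) (cc (fun f => (bd (countable_range
    f)).imp fun b h n => h _ ⟨n, rfl⟩) S (fun a => (bd ((cI a).biUnion (t := fun γ _ => S γ)
      fun γ _ => (countable_iUnion fun n => by
        refine countable_iUnion fun h => h).image r)).imp fun b h γ p x q =>
        h x (mem_biUnion p q)) o)
  choose m m1 m2 using fun γ => wellFounded_lt.has_min {d | d ∈ _ ∧ γ < d}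
    (let ⟨a, p⟩ := bd (countable_singleton γ); (d2.2 a).imp fun d q =>
      ⟨q.1, (p γ rfl).trans_le q.2⟩)
  have mm : ∀ {a b}, a < m b → m a ≤ m b := fun h => not_lt.1 (m2 _ _ ⟨(m1 _).1, h⟩)
  have K : ∀ {a n j W U}, W ∈ B j → Sm a W → n ≤ a → U ∈ B n → (U ∩ W).Nonempty →
      m (r U) ≤ m (r W) := fun {a n j W U} p q s t z => mm ((m1 _).1.2.2 _ (m1 _).2 _
    ⟨U, mem_iUnion₂.2 ⟨n, (hr W ⟨j, p⟩ z.right).symm ▸ ⟨q n s, t, z⟩⟩, rfl⟩)
  choose e he' using fun α => countable_iff_exists_injOn.1 (cI α)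
  let Z : ℕ → Set X := fun i => {x | v x (u x (k i)) ≤ k (i + 1) ∧ v x (k (i + 1)) ≤ k (i + 2) ∧
    m (r (V x (u x (k (i + 2))))) ≤ m (r (V x (u x (k i))))}
  have L : ∀ {i x z}, x ∈ Z i → v z (k (i + 1)) ≤ k (i + 2) → x ∈ V z (k (i + 1)) →
      m (r (V z (k (i + 1)))) = m (r (V x (u x (k i)))) := fun p q s => le_antisymm
    (((K (v1 _ _) (v3 _ _) q (v1 _ _) ⟨_, s, v2 _ _⟩).trans
      (mm ((u2 _ _ _ self_mem_Iic).trans_lt (m1 _).2))).trans p.2.2)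
    (K (v1 _ _) (v3 _ _) p.1 (v1 _ _) ⟨_, v2 _ _, s⟩)
  have R : ∀ {i x y}, x ∈ Z i → y ∈ Z i → m (r (V x (u x (k i)))) = m (r (V y (u y (k i)))) →
      e (m (r (V x (k (i + 1))))) (r (V x (k (i + 1)))) =
        e (m (r (V y (k (i + 1))))) (r (V y (k (i + 1)))) → V x (k (i + 1)) = V y (k (i + 1)) :=
    fun p q s t => by
      have a := (L p p.2.1 (v2 _ _)).trans (s.trans (L q q.2.1 (v2 _ _)).symm)
      rw [a] at t
      exact (hr _ ⟨_, v1 _ _⟩ ⟨_, v2 _ _⟩).symm.trans ((congrArg w (he' _ ((m1 _).2.le.trans_eq a)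
        (m1 _).2.le t)).trans (hr _ ⟨_, v1 _ _⟩ ⟨_, v2 _ _⟩))
  have O : ∀ x a, IsOpen (V x a) := fun x a => hB.isOpen (mem_iUnion.2 ⟨_, v1 x a⟩)
  have G := fun x => (tendsto_add_atTop_nat 1).eventually (H x).1
  refine ⟨fun x i => V x (k (i + 1)), fun x i => V x (u x (k i)) ∩ V x (k (i + 1)), Z,
    fun x i => e (m (r (V x (k (i + 1))))) (r (V x (k (i + 1)))),
    fun x i => ⟨(O _ _).inter (O _ _), ⟨v2 _ _, v2 _ _⟩, inter_subset_right, O _ _⟩,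
    fun x N p => ?_, fun x => ((H x).2.and_eventually ((H x).1.and (G x))).mono fun i p =>
      ⟨(le_max_right _ _).trans p.2.1, (le_max_left _ _).trans p.2.2,
        mm (p.1 _ (m1 _).1.1 (m1 _).2)⟩,
    fun i x p y q s ⟨z, t1, t2⟩ => R p q (le_antisymm
      ((K (v1 _ _) (v3 _ _) p.1 (v1 _ _) ⟨z, t1.1, t2.2⟩).trans_eq (L q q.2.1 (v2 _ _)))
      ((K (v1 _ _) (v3 _ _) q.1 (v1 _ _) ⟨z, t2.1, t1.2⟩).trans_eq (L p p.2.1 (v2 _ _)))) s,
    fun z => (G z).mono fun i p x q y s => R q.1 s.1 ((L q.1 ((le_max_left _ _).trans p)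
      q.2).symm.trans (L s.1 ((le_max_left _ _).trans p) s.2))⟩
  obtain ⟨W, w1, w2, w3⟩ := hB.mem_nhds_iff.1 p
  obtain ⟨n, w4⟩ := mem_iUnion.1 w1
  obtain ⟨j, rfl⟩ := he x (mem_iUnion.2 ⟨n, w4, w2⟩)
  exact (eventually_ge_atTop j).mono fun i q => (v4 _ _ _ (q.trans (i.le_succ.trans
    (k1.id_le _))) ((hB.isOpen w1).mem_nhds w2)).trans w3

theorem main (hk : ¬ KA) (hb : Bb) (X : Type) [TopologicalSpace X] [RegularSpace X]
    (hX : #X = ℵ₁) (B : ℕ → Set (Set X)) (hB : IsTopologicalBasis (⋃ n, B n))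
    (hl : ∀ n, LC (B n)) : (∀ F : Set X, IsClosed F → IsGδ F) ∧ MC X := by
  have : Nonempty X := mk_ne_zero_iff.1 (hX ▸ (aleph_pos 1).ne')
  obtain ⟨W, P, Z, l, h1, h2, h3, h4, h5⟩ := core hk hb hX.le B hB hl
  have A : ∀ F : Set X, IsClosed F → ∃ H : ℕ → Set X, Monotone H ∧ (∀ t, IsClosed (H t)) ∧
      ⋃ t, H t = Fᶜ := fun F c => by
    have : ∀ x n, ∃ i, x ∉ F → n ≤ i ∧ x ∈ Z i ∧ closure (W x i) ⊆ Fᶜ := fun x n => by
      by_cases p : x ∈ F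
      · exact ⟨0, fun q => (q p).elim⟩
      obtain ⟨N, n1, n2, n3⟩ := exists_mem_nhds_isClosed_subset (c.isOpen_compl.mem_nhds p)
      obtain ⟨i, q⟩ := ((h3 x).and_eventually ((h2 x N n1).and (eventually_ge_atTop n))).exists
      exact ⟨i, fun _ => ⟨q.2.2, q.1, (closure_minimal q.2.1 n2).trans n3⟩⟩
    choose f hf using this
    obtain ⟨φ, hφ⟩ := dom hb hX.le fun x n => max (f x n) (l x (f x n))
    refine ⟨fun t => closure {x | x ∉ F ∧ ∀ n ≥ t, max (f x n) (l x (f x n)) ≤ φ n},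
      fun s t h => closure_mono fun x p => ⟨p.1, fun n q => p.2 n (h.trans q)⟩,
      fun _ => isClosed_closure, subset_antisymm (iUnion_subset fun t y p q => ?_) fun x p =>
        let ⟨t, q⟩ := eventually_atTop.1 (hφ x); mem_iUnion.2 ⟨t, subset_closure ⟨p, q⟩⟩⟩
    obtain ⟨M, s⟩ := eventually_atTop.1 (h5 y)
    have : ∀ i ≥ M, ∀ j, ∀ᶠ x in 𝓝 y, ¬ (x ∈ Z i ∧ l x i = j ∧ closure (W x i) ⊆ Fᶜ) :=
      fun i a j => by
        have b := (h1 y i).2.2.2.mem_nhds ((h1 y i).2.2.1 (h1 y i).2.1)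
        by_cases e : ∃ z ∈ W y i, z ∈ Z i ∧ l z i = j ∧ closure (W z i) ⊆ Fᶜ
        · obtain ⟨z, e1, e2, e3, e4⟩ := e
          filter_upwards [b, isClosed_closure.isOpen_compl.mem_nhds fun h => e4 h q] with x u v w
          exact v (subset_closure (s i a x ⟨w.1, u⟩ z ⟨e2, e1⟩ (w.2.1.trans e3.symm) ▸
            (h1 x i).2.2.1 (h1 x i).2.1))
        exact mem_of_superset b fun x u v => e ⟨x, u, v⟩
    obtain ⟨x, u, v⟩ := ((mem_closure_iff_frequently.1 p).and_eventually ((eventually_all_finite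
      (finite_Icc M (φ (M + t)))).2 fun i a => (eventually_all_finite
        (finite_le_nat (φ (M + t)))).2 fun j _ => this i a.1 j)).exists
    have a := hf x (M + t) u.1
    have b := max_le_iff.1 (u.2 _ (Nat.le_add_left t M))
    exact v _ ⟨(M.le_add_right t).trans a.1, b.1⟩ _ b.2 ⟨a.2.1, rfl, a.2.2⟩
  refine ⟨fun F c => ?_, fun 𝒪 c e => ?_⟩
  · obtain ⟨H, -, p, q⟩ := A F c
    rw [← compl_compl F, ← q, compl_iUnion]
    exact .iInter_of_isOpen fun t => (p t).isOpen_compl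
  let Q (n : ℕ) (V : Set X) : Set X := ⋃ x ∈ {x ∈ Z n.unpair.1 | l x n.unpair.1 = n.unpair.2 ∧
    W x n.unpair.1 = V ∧ ∃ O ∈ 𝒪, V ⊆ O}, P x n.unpair.1
  have q1 : ∀ n V, IsOpen (Q n V) := fun n V => isOpen_biUnion fun x _ => (h1 _ _).1
  choose H H1 H2 H3 using fun n => A (⋃ V, Q n V)ᶜ (isOpen_iUnion (q1 n)).isClosed_compl
  have q2 : ∀ x, ∃ n, x ∈ ⋃ V, Q n V := fun x => by
    obtain ⟨O, p, q⟩ := e.ge (mem_univ x)
    obtain ⟨i, s, t⟩ := ((h3 x).and_eventually (h2 x O ((c O p).mem_nhds q))).exists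
    exact ⟨i.pair (l x i), mem_iUnion.2 ⟨W x i, mem_biUnion (x := x)
      (by simpa using ⟨s, O, p, t⟩) (by simpa using (h1 x i).2.1)⟩⟩
  refine ⟨{U | U.Nonempty ∧ ∃ n V, U = Q n V \ ⋃ j < n, H j n}, ?_, eq_univ_of_forall fun x => ?_,
    fun x => ?_⟩
  · rintro _ ⟨⟨y, p⟩, n, V, rfl⟩
    obtain ⟨z, ⟨-, -, -, O, o1, o2⟩, -⟩ := mem_iUnion₂.1 p.1
    exact ⟨(q1 n V).sdiff ((finite_lt_nat n).isClosed_biUnion fun j _ => H2 j n), O, o1,
      sdiff_subset.trans (iUnion₂_subset fun x q => (h1 _ _).2.2.1.trans (q.2.2.1 ▸ o2))⟩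
  · classical
    obtain ⟨V, p⟩ := mem_iUnion.1 (Nat.find_spec (q2 x))
    have : x ∈ Q (Nat.find (q2 x)) V \ ⋃ j < Nat.find (q2 x), H j (Nat.find (q2 x)) :=
      ⟨p, fun q => let ⟨j, a, b⟩ := mem_iUnion₂.1 q; (H3 j).le (mem_iUnion.2 ⟨_, b⟩)
        (Nat.find_min (q2 x) a)⟩
    exact ⟨_, ⟨⟨x, this⟩, _, _, rfl⟩, this⟩
  obtain ⟨j, p⟩ := q2 x
  obtain ⟨t, q⟩ := mem_iUnion.1 ((H3 j).ge (not_not.2 p))
  refine ((finite_le_nat (j + t)).biUnion fun n _ => Subsingleton.finite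
    (s := {U | x ∈ U ∧ ∃ V, U = Q n V \ ⋃ j < n, H j n}) ?_).subset ?_
  · rintro _ ⟨a, V, rfl⟩ _ ⟨b, V', rfl⟩
    obtain ⟨y, ⟨y1, y2, rfl, -⟩, y3⟩ := mem_iUnion₂.1 a.1
    obtain ⟨z, ⟨z1, z2, rfl, -⟩, z3⟩ := mem_iUnion₂.1 b.1
    rw [h4 _ y y1 z z1 (y2.trans z2.symm) ⟨x, y3, z3⟩]
  rintro _ ⟨⟨-, n, V, rfl⟩, a⟩
  exact mem_biUnion (not_lt.1 fun b : j + t < n => a.2 (mem_biUnion (show j < n by omega)
    (H1 j (show t ≤ n by omega) q))) ⟨a, V, rfl⟩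

end Pool.Agent.H.MP_5a4599_gt
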